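import Mathlib

set_option autoImplicit false

namespace Pool.Agent.Results.MP_ee8878_co.Counter
open Matrix Geometry

/-- the affine map `x ↦ A x + b` of `ℝ^d` -/
def act {d : ℕ} (A : Matrix (Fin d) (Fin d) ℤ) (b : Fin d → ℤ) (x : Fin d → ℝ) : Fin d → ℝ :=
  A.map (fun m => (m : ℝ)) *ᵥ x + fun i => (b i : ℝ)

/-- the lattice polytope spanned by a finite set of lattice points -/
def P {d : ℕ} (V : Finset (Fin d → ℤ)) : Set (Fin d → ℝ) :=
  convexHull ℝ ((fun u i => (u i : ℝ)) '' (V : Set (Fin d → ℤ)))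

abbrev K4 := ZMod 2 × ZMod 2
abbrev Gr := Multiplicative (K4 × K4)

def a (g : K4) : Matrix (Fin 3) (Fin 3) ℤ :=
  if g = (0, 0) then !![1, 0, 0; 0, 1, 0; 0, 0, 1] else if g = (1, 0) then !![-1, -1, -1; 0, 0, 1; 0, 1, 0]
  else if g = (0, 1) then !![0, 0, 1; -1, -1, -1; 1, 0, 0] else !![0, 1, 0; 1, 0, 0; -1, -1, -1]

def c (g : K4) : Fin 3 → ℤ :=
  if g = (0, 0) then ![0, 0, 0] else if g = (1, 0) then ![1, 0, 0]
  else if g = (0, 1) then ![0, 1, 0] else ![0, 0, 1]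

def r (i : Fin 6) : Fin 3 := ⟨i % 3, Nat.mod_lt _ (by norm_num)⟩

def A (g : Gr) : Matrix (Fin 6) (Fin 6) ℤ := Matrix.of fun i j =>
  if i < 3 ∧ j < 3 then a g.toAdd.1 (r i) (r j) else if 3 ≤ i ∧ 3 ≤ j then a g.toAdd.2 (r i) (r j) else 0

def b (g : Gr) (i : Fin 6) : ℤ := if i < 3 then c g.toAdd.1 (r i) else c g.toAdd.2 (r i)

def vtx (p : Fin 4 × Fin 4) (k : Fin 6) : ℤ :=
  if (k : ℕ) + 1 = p.1 ∨ ((k : ℕ) = p.2 + 2 ∧ 3 ≤ k) then 1 else 0

def V : Finset (Fin 6 → ℤ) := Finset.univ.image vtx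

lemma hA : ∀ g h : Gr, A (g * h) = A g * A h ∧ b (g * h) = A g *ᵥ b h + b g := by decide +kernel
lemma h1 : A 1 = 1 ∧ b 1 = 0 := by decide +kernel
lemma hV : ∀ g : Gr, V.image (fun u => A g *ᵥ u + b g) = V := by decide +kernel
lemma h2 : ∀ g : Gr, g ^ 2 = 1 := by decide +kernel

def T (g : Gr) : (Fin 6 → ℝ) →ᵃ[ℝ] (Fin 6 → ℝ) :=
  ((A g).map (fun m => (m : ℝ))).mulVecLin.toAffineMap + AffineMap.const ℝ _ fun i => (b g i : ℝ)

lemma T_eq (g : Gr) : ⇑(T g) = act (A g) (b g) := rfl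

lemma act_cast (g : Gr) (u : Fin 6 → ℤ) :
    act (A g) (b g) (fun i => (u i : ℝ)) = fun i => (((A g *ᵥ u + b g) i : ℤ) : ℝ) := by
  funext i
  simp [act, mulVec, dotProduct]

lemma invol (g : Gr) (x : Fin 6 → ℝ) : act (A g) (b g) (act (A g) (b g) x) = x := by
  have e := hA g g
  rw [← pow_two, h2, h1.1, h1.2] at e
  have e1 : (A g).map (fun m => (m : ℝ)) * (A g).map (fun m => (m : ℝ)) = 1 := by
    have := Matrix.map_mul (L := A g) (M := A g) (f := Int.castRingHom ℝ)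
    rw [← e.1, Matrix.map_one _ (map_zero _) (map_one _)] at this
    exact this.symm
  have e2 := act_cast g (b g)
  rw [← e.2] at e2
  simp only [act, mulVec_add, mulVec_mulVec, e1, one_mulVec, add_assoc] at e2 ⊢
  rw [e2]
  funext i
  simp

def g1 : Gr := Multiplicative.ofAdd ((1, 0), (0, 0))
def g2 : Gr := Multiplicative.ofAdd ((0, 1), (0, 0))
def g3 : Gr := Multiplicative.ofAdd ((0, 0), (1, 0))
def g4 : Gr := Multiplicative.ofAdd ((0, 0), (0, 1))

lemma m1 : A g1 = !![-1,-1,-1,0,0,0; 0,0,1,0,0,0; 0,1,0,0,0,0; 0,0,0,1,0,0; 0,0,0,0,1,0; 0,0,0,0,0,1] ∧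
  b g1 = ![1,0,0,0,0,0] := by decide +kernel
lemma m2 : A g2 = !![0,0,1,0,0,0; -1,-1,-1,0,0,0; 1,0,0,0,0,0; 0,0,0,1,0,0; 0,0,0,0,1,0; 0,0,0,0,0,1] ∧
  b g2 = ![0,1,0,0,0,0] := by decide +kernel
lemma m3 : A g3 = !![1,0,0,0,0,0; 0,1,0,0,0,0; 0,0,1,0,0,0; 0,0,0,-1,-1,-1; 0,0,0,0,0,1; 0,0,0,0,1,0] ∧
  b g3 = ![0,0,0,1,0,0] := by decide +kernel
lemma m4 : A g4 = !![1,0,0,0,0,0; 0,1,0,0,0,0; 0,0,1,0,0,0; 0,0,0,0,0,1; 0,0,0,-1,-1,-1; 0,0,0,1,0,0] ∧
  b g4 = ![0,0,0,0,1,0] := by decide +kernel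

lemma t1 (x : Fin 6 → ℝ) : act (A g1) (b g1) x = ![1 - x 0 - x 1 - x 2, x 2, x 1, x 3, x 4, x 5] := by
  funext i
  fin_cases i <;> simp [act, m1, mulVec, dotProduct, Fin.sum_univ_six] <;> ring
lemma t2 (x : Fin 6 → ℝ) : act (A g2) (b g2) x = ![x 2, 1 - x 0 - x 1 - x 2, x 0, x 3, x 4, x 5] := by
  funext i
  fin_cases i <;> simp [act, m2, mulVec, dotProduct, Fin.sum_univ_six] <;> ring
lemma t3 (x : Fin 6 → ℝ) : act (A g3) (b g3) x = ![x 0, x 1, x 2, 1 - x 3 - x 4 - x 5, x 5, x 4] := by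
  funext i
  fin_cases i <;> simp [act, m3, mulVec, dotProduct, Fin.sum_univ_six] <;> ring
lemma t4 (x : Fin 6 → ℝ) : act (A g4) (b g4) x = ![x 0, x 1, x 2, x 5, 1 - x 3 - x 4 - x 5, x 3] := by
  funext i
  fin_cases i <;> simp [act, m4, mulVec, dotProduct, Fin.sum_univ_six] <;> ring

lemma para (K : SimplicialComplex ℝ (Fin 6 → ℝ)) (s : Finset (Fin 6 → ℝ)) (hs : s ∈ K.faces)
    (x0 x1 x2 y0 y1 y2 x3 x4 x5 y3 y4 y5 : ℝ) (h1 : ![x0, x1, x2, x3, x4, x5] ∈ s)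
    (h2 : ![y0, y1, y2, x3, x4, x5] ∈ s) (h3 : ![x0, x1, x2, y3, y4, y5] ∈ s)
    (h4 : ![y0, y1, y2, y3, y4, y5] ∈ s) :
    (x0 = y0 ∧ x1 = y1 ∧ x2 = y2) ∨ (x3 = y3 ∧ x4 = y4 ∧ x5 = y5) := by
  classical
  have f1 := K.down_closed hs (t := {![x0, x1, x2, x3, x4, x5], ![y0, y1, y2, y3, y4, y5]})
    (by intro v hv; simp only [Finset.mem_insert, Finset.mem_singleton] at hv; rcases hv with rfl | rfl <;>
      assumption) (by simp)
  have f2 := K.down_closed hs (t := {![y0, y1, y2, x3, x4, x5], ![x0, x1, x2, y3, y4, y5]})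
    (by intro v hv; simp only [Finset.mem_insert, Finset.mem_singleton] at hv; rcases hv with rfl | rfl <;>
      assumption) (by simp)
  have h := K.inter_subset_convexHull f1 f2 (a := ![(x0 + y0) / 2, (x1 + y1) / 2, (x2 + y2) / 2,
    (x3 + y3) / 2, (x4 + y4) / 2, (x5 + y5) / 2]) (by
      simp only [Finset.coe_insert, Finset.coe_singleton, convexHull_pair]
      constructor <;> refine ⟨1 / 2, 1 / 2, by norm_num, by norm_num, by norm_num, ?_⟩ <;> funext i <;>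
        fin_cases i <;> simp <;> ring)
  obtain ⟨v, hv1, hv2⟩ := convexHull_nonempty_iff.1 ⟨_, h⟩
  simp only [Finset.coe_insert, Finset.coe_singleton, Set.mem_insert_iff, Set.mem_singleton_iff] at hv1 hv2
  rcases hv1 with rfl | rfl <;> rcases hv2 with e | e <;> simp only [vecCons_inj] at e <;> tauto

theorem result : ∃ (G : Type) (_ : Group G) (_ : Finite G) (d : ℕ)
    (A : G → Matrix (Fin d) (Fin d) ℤ) (b : G → Fin d → ℤ) (V : Finset (Fin d → ℤ)),
    (∀ u, A 1 *ᵥ u + b 1 = u) ∧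
    (∀ g h u, A (g * h) *ᵥ u + b (g * h) = A g *ᵥ (A h *ᵥ u + b h) + b g) ∧
    affineSpan ℝ (P V) = ⊤ ∧ (∀ g, act (A g) (b g) '' P V = P V) ∧
    ¬∃ K : SimplicialComplex ℝ (Fin d → ℝ), K.space = P V ∧
      (∀ v ∈ K.vertices, ∀ i, ∃ m : ℤ, v i = m / (Monoid.exponent G : ℝ)) ∧
      ∀ g, ∀ s ∈ K.faces, ∃ t ∈ K.faces,
        act (A g) (b g) '' convexHull ℝ (s : Set (Fin d → ℝ)) = convexHull ℝ (t : Set (Fin d → ℝ)) := by
  classical
  have mem : ∀ p, (fun i => (vtx p i : ℝ)) ∈ (fun u i => (u i : ℝ)) '' (V : Set (Fin 6 → ℤ)) :=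
    fun p => ⟨vtx p, Finset.mem_image_of_mem _ (Finset.mem_univ p), rfl⟩
  refine ⟨Gr, inferInstance, inferInstance, 6, A, b, V, fun u => by simp [h1], fun g h u => by
    rw [(hA g h).1, (hA g h).2, mulVec_add, mulVec_mulVec, add_assoc], ?_, fun g => ?_, ?_⟩
  · rw [P, affineSpan_convexHull,
      AffineSubspace.affineSpan_eq_top_iff_vectorSpan_eq_top_of_nonempty ℝ _ _ ⟨_, mem 0⟩, eq_top_iff,
      ← (Pi.basisFun ℝ (Fin 6)).span_eq, Submodule.span_le]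
    rintro _ ⟨k, rfl⟩
    have e : ∀ k : Fin 6, ∃ p, vtx p - vtx 0 = Pi.single k 1 := by decide +kernel
    obtain ⟨p, hp⟩ := e k
    have := vsub_mem_vectorSpan ℝ (mem p) (mem 0)
    have e2 : ((fun i => (vtx p i : ℝ)) -ᵥ fun i => (vtx 0 i : ℝ)) = Pi.basisFun ℝ (Fin 6) k := by
      funext i
      have := congrFun hp i
      simp only [Pi.sub_apply, Pi.single_apply] at this
      simp only [vsub_eq_sub, Pi.sub_apply, Pi.basisFun_apply, Pi.single_apply]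
      exact_mod_cast this
    rwa [e2] at this
  · rw [P, ← T_eq, AffineMap.image_convexHull, T_eq, Set.image_image]
    simp only [act_cast]
    rw [← Set.image_image (fun (u : Fin 6 → ℤ) i => (u i : ℝ)) (fun u => A g *ᵥ u + b g),
      ← Finset.coe_image, hV]
  rintro ⟨K, hK, hL, hG⟩
  have hp : (fun _ => 1 / 4 : Fin 6 → ℝ) ∈ K.space := by
    rw [hK]
    have := (convex_convexHull ℝ _).sum_mem (t := Finset.univ) (w := fun _ : Fin 4 => (1 / 4 : ℝ))
      (fun _ _ => by norm_num) (by simp) fun i _ => subset_convexHull ℝ _ (mem (i, i))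
    have e : ∑ i : Fin 4, (1 / 4 : ℝ) • (fun k => (vtx (i, i) k : ℝ)) = fun _ => 1 / 4 := by
      funext k
      have : ∀ k, ∑ i : Fin 4, vtx (i, i) k = 1 := by decide +kernel
      have : ∑ i : Fin 4, (vtx (i, i) k : ℝ) = 1 := by exact_mod_cast this k
      simp only [Finset.sum_apply, Pi.smul_apply, smul_eq_mul, ← Finset.mul_sum, this, mul_one]
    rwa [e] at this
  have hex : ∃ n, ∃ s ∈ K.faces, (fun _ => 1 / 4 : Fin 6 → ℝ) ∈ convexHull ℝ (s : Set (Fin 6 → ℝ)) ∧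
      s.card = n := by
    obtain ⟨s, h, h'⟩ := SimplicialComplex.mem_space_iff.1 hp
    exact ⟨_, s, h, h', rfl⟩
  obtain ⟨s, hs, hps, hc⟩ := Nat.find_spec hex
  have inv : ∀ g, act (A g) (b g) (fun _ => 1 / 4) = (fun _ => 1 / 4) → ∀ v ∈ s, act (A g) (b g) v ∈ s := by
    intro g hg v hv
    obtain ⟨t, ht, e⟩ := hG g s hs
    have q : (fun _ => 1 / 4 : Fin 6 → ℝ) ∈ convexHull ℝ ((s ∩ t : Finset _) : Set (Fin 6 → ℝ)) := by
      rw [Finset.coe_inter]
      exact K.inter_subset_convexHull hs ht ⟨hps, e ▸ ⟨_, hps, hg⟩⟩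
    have hst := K.down_closed hs Finset.inter_subset_left
      (Finset.coe_nonempty.1 (convexHull_nonempty_iff.1 ⟨_, q⟩))
    have := Nat.find_min' hex ⟨_, hst, q, rfl⟩
    have e3 := Finset.eq_of_subset_of_card_le Finset.inter_subset_left (hc ▸ this)
    have hvt : v ∈ convexHull ℝ (t : Set (Fin 6 → ℝ)) :=
      subset_convexHull ℝ _ (Finset.mem_inter.1 (e3.symm ▸ hv)).2
    obtain ⟨w, hw, e4⟩ := e ▸ hvt
    have e5 : act (A g) (b g) v ∈ convexHull ℝ (s : Set (Fin 6 → ℝ)) := by rwa [← e4, invol]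
    obtain ⟨u, hu, e6⟩ := hG g {v} (K.down_closed hs (by simpa) (by simp))
    simp only [Finset.coe_singleton, convexHull_singleton, Set.image_singleton] at e6
    have e7 : u = {act (A g) (b g) v} := by
      refine ((Finset.subset_singleton_iff.1 fun z hz => ?_).resolve_left
        (SimplicialComplex.nonempty_of_mem_faces hu).ne_empty)
      have := subset_convexHull ℝ _ hz
      rw [← e6] at this
      exact Finset.mem_singleton.2 this
    rw [e7] at hu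
    exact (SimplicialComplex.vertex_mem_convexHull_iff hu hs).1 e5
  have i1 := inv g1 (by rw [t1]; funext i; fin_cases i <;> simp; norm_num)
  have i2 := inv g2 (by rw [t2]; funext i; fin_cases i <;> simp; norm_num)
  have i3 := inv g3 (by rw [t3]; funext i; fin_cases i <;> simp; norm_num)
  have i4 := inv g4 (by rw [t4]; funext i; fin_cases i <;> simp; norm_num)
  simp only [t1, t2, t3, t4] at i1 i2 i3 i4
  obtain ⟨v, hv⟩ := SimplicialComplex.nonempty_of_mem_faces hs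
  have hv' : ![v 0, v 1, v 2, v 3, v 4, v 5] ∈ s := by
    have : ![v 0, v 1, v 2, v 3, v 4, v 5] = v := by funext i; fin_cases i <;> rfl
    rwa [this]
  have p1 := para K s hs _ _ _ _ _ _ _ _ _ _ _ _ hv' (i1 v hv) (i3 v hv) (i1 _ (i3 v hv))
  have p2 := para K s hs _ _ _ _ _ _ _ _ _ _ _ _ hv' (i1 v hv) (i4 v hv) (i1 _ (i4 v hv))
  have p3 := para K s hs _ _ _ _ _ _ _ _ _ _ _ _ hv' (i2 v hv) (i3 v hv) (i2 _ (i3 v hv))
  have p4 := para K s hs _ _ _ _ _ _ _ _ _ _ _ _ hv' (i2 v hv) (i4 v hv) (i2 _ (i4 v hv))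
  have hn : ∀ i, v i ≠ 1 / 4 := fun i e => by
    obtain ⟨m, hm⟩ := hL v (K.down_closed hs (by simpa) (by simp)) i
    rcases (Nat.dvd_prime Nat.prime_two).1 (Monoid.exponent_dvd_of_forall_pow_eq_one h2) with q | q <;>
      rw [q, e] at hm
    · have : (4 * m : ℝ) = 1 := by push_cast at hm; linarith
      have : 4 * m = 1 := by exact_mod_cast this
      omega
    · have : (2 * m : ℝ) = 1 := by push_cast at hm; linarith
      have : 2 * m = 1 := by exact_mod_cast this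
      omega
  rcases p1 with p1 | p1
  · rcases p3 with p3 | p3
    · exact hn 0 (by linarith [p1.1, p1.2.1, p3.1])
    · rcases p4 with p4 | p4
      · exact hn 0 (by linarith [p1.1, p1.2.1, p4.1])
      · exact hn 3 (by linarith [p3.1, p3.2.1, p4.1])
  · rcases p2 with p2 | p2
    · rcases p4 with p4 | p4
      · exact hn 0 (by linarith [p2.1, p2.2.1, p4.1])
      · exact hn 3 (by linarith [p1.1, p1.2.1, p4.1])
    · exact hn 3 (by linarith [p1.1, p1.2.1, p2.1])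

end Pool.Agent.Results.MP_ee8878_co.Counter
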